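import Pool.Agent.Lib.MP_e589f0_an.Final

/-!
# The stationary coagulation equation with source and sink at `γ + 2 λ = 1`

Complete determination of the set `S` of the values `M` for which the equation
`K[f] - M x ^ (-λ) f + η = 0` has a nonnegative solution.
-/

namespace Pool.Agent.Results.MP_e589f0_an.CriticalValue

open MeasureTheory Set Pool.Agent.Lib.MP_e589f0_an

/-- Let `γ < 1`, `λ = (1 - γ) / 2`, and let `K(x, y) = (x + y) ^ γ F(x / (x + y))`.

* If there is no bounded set of sizes carrying the source and closed under coagulation, then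
  the critical value is `1`: `S = [1, ∞)`. Otherwise `S = (0, ∞)`.
  This holds for function sources (with function solutions and with measure solutions)
  and for measure sources (with measure solutions).
* If `F (1 / 2) ≠ 0`, i.e. `K(x, x) ≠ 0`, there is never such a bounded set, so `S = [1, ∞)`.
* For every `γ < 1` there are admissible `F` and `η` with such a bounded set, so
  that `S = (0, ∞)` is not closed. -/
theorem result (γ : ℝ) (_hγ : γ < 1) :
    (∀ F : ℝ → ℝ, IsProfile γ F →
      (∀ η : ℝ → ℝ, IsSource η →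
        (¬ HasBoundedSystem F (densMeasure η) →
          functionS γ F η = Ici 1 ∧ measureS γ F (densMeasure η) = Ici 1) ∧
        (HasBoundedSystem F (densMeasure η) →
          functionS γ F η = Ioi 0 ∧ measureS γ F (densMeasure η) = Ioi 0)) ∧
      (∀ ν : Measure ℝ, IsMeasureSource ν →
        (¬ HasBoundedSystem F ν → measureS γ F ν = Ici 1) ∧
        (HasBoundedSystem F ν → measureS γ F ν = Ioi 0)) ∧
      (F (1 / 2) ≠ 0 →
        (∀ η : ℝ → ℝ, IsSource η →
          functionS γ F η = Ici 1 ∧ measureS γ F (densMeasure η) = Ici 1) ∧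
        (∀ ν : Measure ℝ, IsMeasureSource ν → measureS γ F ν = Ici 1))) ∧
    (∃ F : ℝ → ℝ, ∃ η : ℝ → ℝ, IsProfile γ F ∧ IsSource η ∧
      HasBoundedSystem F (densMeasure η) ∧
      functionS γ F η = Ioi 0 ∧ measureS γ F (densMeasure η) = Ioi 0) := by
  have main : ∀ F : ℝ → ℝ, IsProfile γ F →
      (∀ η : ℝ → ℝ, IsSource η →
        (¬ HasBoundedSystem F (densMeasure η) →
          functionS γ F η = Ici 1 ∧ measureS γ F (densMeasure η) = Ici 1) ∧
        (HasBoundedSystem F (densMeasure η) →
          functionS γ F η = Ioi 0 ∧ measureS γ F (densMeasure η) = Ioi 0)) ∧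
      (∀ ν : Measure ℝ, IsMeasureSource ν →
        (¬ HasBoundedSystem F ν → measureS γ F ν = Ici 1) ∧
        (HasBoundedSystem F ν → measureS γ F ν = Ioi 0)) := by
    intro F hF
    refine ⟨fun η hη => ⟨fun h => ?_, fun h => ?_⟩, fun ν hν => ⟨fun h => ?_, fun h => ?_⟩⟩
    · rw [functionS_eq hF hη, measureS_eq hF hη.isMeasureSource, set_eq_of_not_system h]
      exact ⟨rfl, rfl⟩
    · rw [functionS_eq hF hη, measureS_eq hF hη.isMeasureSource, set_eq_of_system h]
      exact ⟨rfl, rfl⟩
    · rw [measureS_eq hF hν, set_eq_of_not_system h]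
    · rw [measureS_eq hF hν, set_eq_of_system h]
  refine ⟨fun F hF => ⟨(main F hF).1, (main F hF).2, fun hne => ⟨fun η hη => ?_, fun ν hν => ?_⟩⟩,
    exF γ, exη, isProfile_exF γ, isSource_exη, hasBoundedSystem_ex γ, ?_⟩
  · exact ((main F hF).1 η hη).1 (not_hasBoundedSystem hη.isMeasureSource hne)
  · exact ((main F hF).2 ν hν).1 (not_hasBoundedSystem hν hne)
  · exact ((main _ (isProfile_exF γ)).1 _ isSource_exη).2 (hasBoundedSystem_ex γ)

end Pool.Agent.Results.MP_e589f0_an.CriticalValue
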